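import Mathlib
import Pool.Agent.helper82.UM.Spec
import Pool.Agent.helper16.PU.Defs

/-!
# Project PU (MP_2e0e07_nt): polynomial open image for the pair, one prime: definitions and basic facts
-/

set_option autoImplicit false

namespace Pool.Agent.PV

open Matrix Polynomial Pool.Agent.GO Pool.Agent.AR Pool.Agent.RG Pool.Agent.HZ Pool.Agent.DS
  Pool.Agent.AX Pool.Agent.UM Pool.Agent.PU MeasureTheory NumberField

/-! ## Definitions -/

/-- The determinant of the coordinates `(x 0 1, x 1 0, x 0 0 - x 1 1)` of three matrices. -/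
def d3 {F : Type*} [CommRing F] (A B C : Matrix (Fin 2) (Fin 2) F) : F :=
  (!![A 0 1, A 1 0, A 0 0 - A 1 1; B 0 1, B 1 0, B 0 0 - B 1 1; C 0 1, C 1 0, C 0 0 - C 1 1] :
    Matrix (Fin 3) (Fin 3) F).det

/-- The linear form `u Y w`, `u = (- w 1, w 0)`; it is zero on scalar matrices. -/
def lam {F : Type*} [CommRing F] (w : Fin 2 → F) (Y : Matrix (Fin 2) (Fin 2) F) : F :=
  w 0 ^ 2 * Y 1 0 - w 1 ^ 2 * Y 0 1 - w 0 * w 1 * (Y 0 0 - Y 1 1)

/-- `R` is an integral representation over `K`; `G₁` is a closed normal subgroup, its elements are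
close to the scalars; `κ` is a constant such that the conjugates of an element of `G₁` span, up to
the factor `κ`. -/
structure Lvl {Γ K : Type} [Group Γ] [TopologicalSpace Γ] [NormedField K]
    (R : Γ →* Matrix (Fin 2) (Fin 2) K) (G₁ : Subgroup Γ) (κ : ℝ) : Prop where
  cont : Continuous R
  int : ∀ g i j, ‖R g i j‖ ≤ 1
  closed : IsClosed (G₁ : Set Γ)
  normal : G₁.Normal
  pos : 0 < κ
  le : κ ≤ 1
  small : ∀ h ∈ G₁, nu (R h) < κ * ‖(2 : K)‖
  pow : ∀ h ∈ G₁, ∀ k : ℕ, nu (R (h ^ k)) = ‖(k : K)‖ * nu (R h)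
  spn : ∀ h ∈ G₁, ∃ a b c : Γ,
    κ * nu (R h) ^ 3 ≤ ‖d3 (R (a * h * a⁻¹)) (R (b * h * b⁻¹)) (R (c * h * c⁻¹))‖

/-- The elements `h` of `G₁` with `V h` congruent to the identity matrix modulo `p ^ r`. -/
def Lv {Γ m : Type} [Group Γ] [Fintype m] [DecidableEq m] {p : ℕ} [Fact p.Prime]
    (V : Γ →* Matrix m m ℤ_[p]) (G₁ : Subgroup Γ) (r : ℕ) : Set Γ :=
  {h | h ∈ G₁ ∧ ∀ i j, (p : ℤ_[p]) ^ r ∣ (V h - 1) i j}

/-- the ordered product of the `g ^ k * h ^ e k * g ^ (-k)`, `k < n` -/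
def dprod {Γ : Type} [Group Γ] (g h : Γ) (e : ℕ → ℕ) : ℕ → Γ
  | 0 => 1
  | n + 1 => dprod g h e n * (g ^ n * h ^ e n * (g ^ n)⁻¹)

/-- the direct sum of matrix representations over a commutative ring -/
def bsum {Γ A : Type*} [Group Γ] [CommRing A] {r : ℕ} {n : Fin r → ℕ}
    (V : (i : Fin r) → Γ →* Matrix (Fin (n i)) (Fin (n i)) A) :
    Γ →* Matrix (Σ i : Fin r, Fin (n i)) (Σ i : Fin r, Fin (n i)) A where
  toFun g := Matrix.blockDiagonal' fun i => V i g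
  map_one' := by
    have h : (fun i => V i 1) = (1 : (i : Fin r) → Matrix (Fin (n i)) (Fin (n i)) A) := by
      ext1 i
      exact map_one (V i)
    rw [h, Matrix.blockDiagonal'_one]
  map_mul' g h := by
    rw [← Matrix.blockDiagonal'_mul]
    congr 1
    ext1 i
    exact map_mul (V i) g h

/-! ## Basic facts -/

/-- The norm of an extension of `ℚ_[p]` is ultrametric. -/
theorem ultra (p : ℕ) [Fact p.Prime] (K : Type*) [NormedField K] [NormedAlgebra ℚ_[p] K] :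
    IsUltrametricDist K := by
  refine IsUltrametricDist.isUltrametricDist_of_forall_norm_natCast_le_one fun n => ?_
  have h2 : (n : K) = algebraMap ℚ_[p] K (n : ℚ_[p]) := by rw [map_natCast]
  rw [h2, norm_algebraMap']
  have h3 := Padic.norm_int_le_one (p := p) (n : ℤ)
  simpa using h3

theorem norm_p (p : ℕ) [Fact p.Prime] (K : Type*) [NormedField K] [NormedAlgebra ℚ_[p] K] :
    ‖(p : K)‖ = (p : ℝ)⁻¹ := by
  have h2 : (p : K) = algebraMap ℚ_[p] K (p : ℚ_[p]) := by rw [map_natCast]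
  rw [h2, norm_algebraMap', Padic.norm_p]

theorem norm_toF (p : ℕ) [Fact p.Prime] (K : Type) [NormedField K] [NormedAlgebra ℚ_[p] K]
    (x : ℤ_[p]) : ‖toF p K x‖ = ‖x‖ := by
  show ‖algebraMap ℚ_[p] K (x : ℚ_[p])‖ = ‖x‖
  rw [norm_algebraMap', PadicInt.norm_def]

section nu

variable {F : Type*} [NormedField F]

theorem nu_nonneg (M : Matrix (Fin 2) (Fin 2) F) : 0 ≤ nu M :=
  (norm_nonneg _).trans (le_max_right _ _)

theorem norm01_le (M : Matrix (Fin 2) (Fin 2) F) : ‖M 0 1‖ ≤ nu M :=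
  (le_max_left _ _).trans (le_max_left _ _)

theorem norm10_le (M : Matrix (Fin 2) (Fin 2) F) : ‖M 1 0‖ ≤ nu M :=
  (le_max_right _ _).trans (le_max_left _ _)

theorem normd_le (M : Matrix (Fin 2) (Fin 2) F) : ‖M 0 0 - M 1 1‖ ≤ nu M := le_max_right _ _

theorem nu_le {M : Matrix (Fin 2) (Fin 2) F} {b : ℝ} (h1 : ‖M 0 1‖ ≤ b) (h2 : ‖M 1 0‖ ≤ b)
    (h3 : ‖M 0 0 - M 1 1‖ ≤ b) : nu M ≤ b := max_le (max_le h1 h2) h3

theorem nu_cases (M : Matrix (Fin 2) (Fin 2) F) :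
    nu M = ‖M 0 1‖ ∨ nu M = ‖M 1 0‖ ∨ nu M = ‖M 0 0 - M 1 1‖ := by
  unfold nu
  rcases le_total (max ‖M 0 1‖ ‖M 1 0‖) ‖M 0 0 - M 1 1‖ with h | h
  · exact Or.inr (Or.inr (max_eq_right h))
  · rw [max_eq_left h]
    rcases le_total ‖M 0 1‖ ‖M 1 0‖ with h' | h'
    · exact Or.inr (Or.inl (max_eq_right h'))
    · exact Or.inl (max_eq_left h')

theorem nu_eq_zero_iff (M : Matrix (Fin 2) (Fin 2) F) : nu M = 0 ↔ ∃ c : F, M = c • 1 := by
  constructor
  · intro h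
    have h1 : M 0 1 = 0 := norm_le_zero_iff.1 (h ▸ norm01_le M)
    have h2 : M 1 0 = 0 := norm_le_zero_iff.1 (h ▸ norm10_le M)
    have h3 : M 0 0 - M 1 1 = 0 := norm_le_zero_iff.1 (h ▸ normd_le M)
    refine ⟨M 1 1, ?_⟩
    ext i j
    fin_cases i <;> fin_cases j
    · simpa using sub_eq_zero.1 h3
    · simpa using h1
    · simpa using h2
    · simp
  · rintro ⟨c, rfl⟩
    simp [nu]

theorem nu_one : nu (1 : Matrix (Fin 2) (Fin 2) F) = 0 := (nu_eq_zero_iff _).2 ⟨1, by simp⟩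

theorem nu_smul (c : F) (M : Matrix (Fin 2) (Fin 2) F) : nu (c • M) = ‖c‖ * nu M := by
  unfold nu
  rw [mul_max_of_nonneg _ _ (norm_nonneg c), mul_max_of_nonneg _ _ (norm_nonneg c)]
  simp only [Matrix.smul_apply, smul_eq_mul, norm_mul, ← mul_sub]

theorem nu_add_scalar (c : F) (M : Matrix (Fin 2) (Fin 2) F) : nu (M + c • 1) = nu M := by
  unfold nu
  simp

theorem nu_sub_scalar (c : F) (M : Matrix (Fin 2) (Fin 2) F) : nu (M - c • 1) = nu M := by
  unfold nu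
  simp

/-- The entries of `M - M 1 1` have absolute value at most `nu M`. -/
theorem entry_sub_le (M : Matrix (Fin 2) (Fin 2) F) (i j : Fin 2) :
    ‖(M - M 1 1 • (1 : Matrix (Fin 2) (Fin 2) F)) i j‖ ≤ nu M := by
  fin_cases i <;> fin_cases j
  · simpa using normd_le M
  · simpa using norm01_le M
  · simpa using norm10_le M
  · simpa using nu_nonneg M

theorem lam_scalar (w : Fin 2 → F) (c : F) : lam w (c • (1 : Matrix (Fin 2) (Fin 2) F)) = 0 := by
  simp [lam]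

theorem lam_add (w : Fin 2 → F) (A B : Matrix (Fin 2) (Fin 2) F) :
    lam w (A + B) = lam w A + lam w B := by
  simp only [lam, Matrix.add_apply]
  ring

theorem lam_smul (w : Fin 2 → F) (c : F) (A : Matrix (Fin 2) (Fin 2) F) :
    lam w (c • A) = c * lam w A := by
  simp only [lam, Matrix.smul_apply, smul_eq_mul]
  ring

variable [IsUltrametricDist F]

theorem nadd {x y : F} {b : ℝ} (hx : ‖x‖ ≤ b) (hy : ‖y‖ ≤ b) : ‖x + y‖ ≤ b :=
  (IsUltrametricDist.norm_add_le_max x y).trans (max_le hx hy)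

theorem nsub {x y : F} {b : ℝ} (hx : ‖x‖ ≤ b) (hy : ‖y‖ ≤ b) : ‖x - y‖ ≤ b := by
  rw [sub_eq_add_neg]
  exact nadd hx (by rwa [norm_neg])

omit [IsUltrametricDist F] in
theorem nmul {x y : F} {b c : ℝ} (hx : ‖x‖ ≤ b) (hy : ‖y‖ ≤ c) : ‖x * y‖ ≤ b * c := by
  rw [norm_mul]
  exact mul_le_mul hx hy (norm_nonneg _) ((norm_nonneg _).trans hx)

/-- entries of a product -/
theorem entry_mul_le {M N : Matrix (Fin 2) (Fin 2) F} {b c : ℝ} (hM : ∀ i j, ‖M i j‖ ≤ b)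
    (hN : ∀ i j, ‖N i j‖ ≤ c) (i j : Fin 2) : ‖(M * N) i j‖ ≤ b * c := by
  rw [Matrix.mul_apply, Fin.sum_univ_two]
  exact nadd (nmul (hM _ _) (hN _ _)) (nmul (hM _ _) (hN _ _))

theorem nu_le_of_entry {M : Matrix (Fin 2) (Fin 2) F} {b : ℝ} (hM : ∀ i j, ‖M i j‖ ≤ b) :
    nu M ≤ b := nu_le (hM 0 1) (hM 1 0) (nsub (hM 0 0) (hM 1 1))

theorem lam_le {w : Fin 2 → F} (hw : ∀ i, ‖w i‖ ≤ 1) (M : Matrix (Fin 2) (Fin 2) F) :
    ‖lam w M‖ ≤ nu M := by
  have h0 : ∀ i j, ‖w i * w j‖ ≤ 1 := fun i j => by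
    simpa using nmul (hw i) (hw j)
  unfold lam
  refine nsub (nsub ?_ ?_) ?_
  · rw [pow_two]
    simpa using nmul (h0 0 0) (norm10_le M)
  · rw [pow_two]
    simpa using nmul (h0 1 1) (norm01_le M)
  · simpa using nmul (h0 0 1) (normd_le M)

theorem nu_add_le (M N : Matrix (Fin 2) (Fin 2) F) : nu (M + N) ≤ max (nu M) (nu N) := by
  refine nu_le ?_ ?_ ?_
  · rw [Matrix.add_apply]
    exact nadd ((norm01_le M).trans (le_max_left _ _)) ((norm01_le N).trans (le_max_right _ _))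
  · rw [Matrix.add_apply]
    exact nadd ((norm10_le M).trans (le_max_left _ _)) ((norm10_le N).trans (le_max_right _ _))
  · have h : (M + N) 0 0 - (M + N) 1 1 = (M 0 0 - M 1 1) + (N 0 0 - N 1 1) := by
      rw [Matrix.add_apply, Matrix.add_apply]
      ring
    rw [h]
    exact nadd ((normd_le M).trans (le_max_left _ _)) ((normd_le N).trans (le_max_right _ _))

theorem nu_mul_le {M N : Matrix (Fin 2) (Fin 2) F} (hM : ∀ i j, ‖M i j‖ ≤ 1)
    (hN : ∀ i j, ‖N i j‖ ≤ 1) : nu (M * N) ≤ max (nu M) (nu N) := by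
  set E := M - M 1 1 • (1 : Matrix (Fin 2) (Fin 2) F) with hE
  set E' := N - N 1 1 • (1 : Matrix (Fin 2) (Fin 2) F) with hE'
  have h1 : ∀ i j, ‖E i j‖ ≤ nu M := entry_sub_le M
  have h2 : ∀ i j, ‖E' i j‖ ≤ nu N := entry_sub_le N
  have h3 : M * N = (M 1 1 • E' + N 1 1 • E + E * E') + (M 1 1 * N 1 1) • 1 := by
    have e1 : M = E + M 1 1 • 1 := by rw [hE]; abel
    have e2 : N = E' + N 1 1 • 1 := by rw [hE']; abel
    conv_lhs => rw [e1, e2]
    simp only [Matrix.add_mul, Matrix.mul_add, Matrix.smul_mul, Matrix.mul_smul, Matrix.one_mul,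
      Matrix.mul_one]
    module
  rw [h3, nu_add_scalar]
  refine nu_le_of_entry fun i j => ?_
  rw [Matrix.add_apply, Matrix.add_apply, Matrix.smul_apply, Matrix.smul_apply, smul_eq_mul,
    smul_eq_mul]
  have hN1 : nu N ≤ 1 := nu_le_of_entry hN
  refine nadd (nadd ?_ ?_) ?_
  · refine (nmul (hM 1 1) (h2 i j)).trans ?_
    rw [one_mul]
    exact le_max_right _ _
  · refine (nmul (hN 1 1) (h1 i j)).trans ?_
    rw [one_mul]
    exact le_max_left _ _
  · refine (entry_mul_le h1 h2 i j).trans ?_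
    calc nu M * nu N ≤ nu M * 1 := mul_le_mul_of_nonneg_left hN1 (nu_nonneg M)
      _ ≤ max (nu M) (nu N) := by rw [mul_one]; exact le_max_left _ _

theorem nu_conj_le {M A A' : Matrix (Fin 2) (Fin 2) F} (hA : ∀ i j, ‖A i j‖ ≤ 1)
    (hA' : ∀ i j, ‖A' i j‖ ≤ 1) (h : A * A' = 1) : nu (A * M * A') ≤ nu M := by
  have h3 : A * M * A' = A * (M - M 1 1 • (1 : Matrix (Fin 2) (Fin 2) F)) * A' + M 1 1 • 1 := by
    rw [Matrix.mul_sub, Matrix.sub_mul, Matrix.mul_smul, Matrix.mul_one, Matrix.smul_mul, h]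
    abel
  rw [h3, nu_add_scalar]
  refine nu_le_of_entry fun i j => ?_
  have h4 := entry_mul_le (b := 1 * nu M) (c := 1)
    (fun i j => entry_mul_le hA (entry_sub_le M) i j) hA' i j
  rwa [one_mul, mul_one] at h4

theorem nu_conj {M A A' : Matrix (Fin 2) (Fin 2) F} (hA : ∀ i j, ‖A i j‖ ≤ 1)
    (hA' : ∀ i j, ‖A' i j‖ ≤ 1) (h : A * A' = 1) (h' : A' * A = 1) : nu (A * M * A') = nu M := by
  refine le_antisymm (nu_conj_le hA hA' h) ?_
  have h1 : M = A' * (A * M * A') * A := by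
    calc M = (A' * A) * M * (A' * A) := by rw [h']; simp
      _ = A' * (A * M * A') * A := by simp only [Matrix.mul_assoc]
  conv_lhs => rw [h1]
  exact nu_conj_le hA' hA h'

end nu

section rep

variable {Γ K : Type*} [Group Γ] [NormedField K] [IsUltrametricDist K]
  {R : Γ →* Matrix (Fin 2) (Fin 2) K}

theorem nu_rep_mul (hR : ∀ g i j, ‖R g i j‖ ≤ 1) (g h : Γ) :
    nu (R (g * h)) ≤ max (nu (R g)) (nu (R h)) := by
  rw [map_mul]
  exact nu_mul_le (hR g) (hR h)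

theorem nu_rep_conj (hR : ∀ g i j, ‖R g i j‖ ≤ 1) (g h : Γ) :
    nu (R (g * h * g⁻¹)) = nu (R h) := by
  rw [map_mul, map_mul]
  exact nu_conj (hR g) (hR g⁻¹) (hom_mul_inv' R g) (hom_inv_mul' R g)

theorem det_unit (hR : ∀ g i j, ‖R g i j‖ ≤ 1) (g : Γ) : ‖(R g).det‖ = 1 := by
  have h1 : ∀ g, ‖(R g).det‖ ≤ 1 := fun g => by
    rw [Matrix.det_fin_two]
    exact nsub (by simpa using nmul (hR g 0 0) (hR g 1 1)) (by simpa using nmul (hR g 0 1) (hR g 1 0))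
  have h2 : ‖(R g).det‖ * ‖(R g⁻¹).det‖ = 1 := by
    rw [← norm_mul, ← Matrix.det_mul, hom_mul_inv', Matrix.det_one, norm_one]
  refine le_antisymm (h1 g) ?_
  rw [← h2]
  exact mul_le_of_le_one_right (norm_nonneg _) (h1 _)

theorem diag_unit {M : Matrix (Fin 2) (Fin 2) K} (hM : ∀ i j, ‖M i j‖ ≤ 1) (hd : ‖M.det‖ = 1)
    (hn : nu M < 1) : ‖M 1 1‖ = 1 := by
  refine le_antisymm (hM 1 1) ?_
  by_contra hlt
  rw [not_le] at hlt
  have h0 : ‖M 0 0‖ < 1 := by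
    have h1 : M 0 0 = (M 0 0 - M 1 1) + M 1 1 := by ring
    rw [h1]
    exact (IsUltrametricDist.norm_add_le_max _ _).trans_lt (max_lt ((normd_le M).trans_lt hn) hlt)
  have h1 : ‖M.det‖ < 1 := by
    rw [Matrix.det_fin_two, sub_eq_add_neg]
    refine (IsUltrametricDist.norm_add_le_max _ _).trans_lt (max_lt ?_ ?_)
    · rw [norm_mul]
      exact mul_lt_one_of_nonneg_of_lt_one_left (norm_nonneg _) h0 (hM 1 1)
    · rw [norm_neg, norm_mul]
      exact mul_lt_one_of_nonneg_of_lt_one_left (norm_nonneg _) ((norm01_le M).trans_lt hn) (hM 1 0)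
  exact absurd hd h1.ne

theorem continuous_nu {Γ' : Type*} [TopologicalSpace Γ'] {f : Γ' → Matrix (Fin 2) (Fin 2) K}
    (hf : Continuous f) : Continuous fun g => nu (f g) :=
  ((hf.matrix_elem 0 1).norm.max (hf.matrix_elem 1 0).norm).max
    ((hf.matrix_elem 0 0).sub (hf.matrix_elem 1 1)).norm

theorem nu_rep_inv (hR : ∀ g i j, ‖R g i j‖ ≤ 1) (g : Γ) : nu (R g⁻¹) = nu (R g) := by
  have h1 : ∀ g, nu (R g⁻¹) ≤ nu (R g) := by
    intro g
    have hd := det_unit hR g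
    have h2 : R g⁻¹ = (R g)⁻¹ := (Matrix.inv_eq_right_inv (hom_mul_inv' R g)).symm
    rw [h2, Matrix.inv_def, Ring.inverse_eq_inv', nu_smul, norm_inv, hd, inv_one, one_mul]
    refine nu_le ?_ ?_ ?_
    · rw [Matrix.adjugate_fin_two]
      simpa using norm01_le (R g)
    · rw [Matrix.adjugate_fin_two]
      simpa using norm10_le (R g)
    · rw [Matrix.adjugate_fin_two]
      simpa [norm_sub_rev] using normd_le (R g)
  refine le_antisymm (h1 g) ?_
  have h2 := h1 g⁻¹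
  rwa [inv_inv] at h2

/-- The subgroup of the `h` with `nu (R h) < δ`. -/
noncomputable def GS (R : Γ →* Matrix (Fin 2) (Fin 2) K) (hR : ∀ g i j, ‖R g i j‖ ≤ 1) (δ : ℝ)
    (hδ : 0 < δ) : Subgroup Γ where
  carrier := {h | nu (R h) < δ}
  one_mem' := by
    show nu (R 1) < δ
    rw [map_one, nu_one]
    exact hδ
  mul_mem' := fun {a b} ha hb => (nu_rep_mul hR a b).trans_lt (max_lt ha hb)
  inv_mem' := fun {a} ha => by
    show nu (R a⁻¹) < δ
    rw [nu_rep_inv hR]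
    exact ha

theorem mem_GS (R : Γ →* Matrix (Fin 2) (Fin 2) K) (hR : ∀ g i j, ‖R g i j‖ ≤ 1) (δ : ℝ)
    (hδ : 0 < δ) (h : Γ) : h ∈ GS R hR δ hδ ↔ nu (R h) < δ := Iff.rfl

theorem GS_normal (R : Γ →* Matrix (Fin 2) (Fin 2) K) (hR : ∀ g i j, ‖R g i j‖ ≤ 1) (δ : ℝ)
    (hδ : 0 < δ) : (GS R hR δ hδ).Normal := by
  constructor
  intro n hn g
  show nu (R (g * n * g⁻¹)) < δ
  rw [nu_rep_conj hR]
  exact hn

theorem GS_closed [TopologicalSpace Γ] (R : Γ →* Matrix (Fin 2) (Fin 2) K) (hc : Continuous R)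
    (hR : ∀ g i j, ‖R g i j‖ ≤ 1) (δ : ℝ) (hδ : 0 < δ) : IsClosed (GS R hR δ hδ : Set Γ) := by
  have h1 : (GS R hR δ hδ : Set Γ) = ((fun g => R g 0 1) ⁻¹' Metric.ball 0 δ ∩
      (fun g => R g 1 0) ⁻¹' Metric.ball 0 δ) ∩
      (fun g => R g 0 0 - R g 1 1) ⁻¹' Metric.ball 0 δ := by
    ext g
    show nu (R g) < δ ↔ _
    simp only [nu, max_lt_iff, Set.mem_inter_iff, Set.mem_preimage, Metric.mem_ball, dist_zero_right]
  rw [h1]
  exact (((IsUltrametricDist.isClosed_ball 0 δ).preimage (hc.matrix_elem 0 1)).inter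
    ((IsUltrametricDist.isClosed_ball 0 δ).preimage (hc.matrix_elem 1 0))).inter
    ((IsUltrametricDist.isClosed_ball 0 δ).preimage
      ((hc.matrix_elem 0 0).sub (hc.matrix_elem 1 1)))

theorem GS_open [TopologicalSpace Γ] [IsTopologicalGroup Γ] (R : Γ →* Matrix (Fin 2) (Fin 2) K)
    (hc : Continuous R) (hR : ∀ g i j, ‖R g i j‖ ≤ 1) (δ : ℝ) (hδ : 0 < δ) :
    IsOpen (GS R hR δ hδ : Set Γ) :=
  isOpen_lt (continuous_nu hc) continuous_const

end rep

end Pool.Agent.PV
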