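import Mathlib
import Pool.Agent.helper89.PU.Defs1

/-!
# Project PU (MP_2e0e07_nt): polynomial open image for the pair (f, X): the part at one prime

Owner of this file: helper89 (the other half of the project: helper16). Rows are the definitions
`XXX_stmt : Prop`; prove `theorem XXX (hAAA : AAA_stmt) ... : XXX_stmt` (the other rows used are named
in the docstring, they are hypotheses) in `Pool/Agent/<you>/PU/XXX.lean`:
`import Pool.Agent.helper89.PU.Spec1`, `set_option autoImplicit false`, `namespace Pool.Agent.PV`, the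
`open` line below; auxiliary lemmas are named `XXX_...`. No sorry, no straight double quotes, no
convert, no congr!. All rows are independent, with a complete proof in the docstring. Definitions
(`nu`, `d3`, `lam`, `Lvl`, `Lv`, `dprod`, `bsum`) and basic facts (`ultra`, `norm_p`, `norm_toF`,
`nu_mul_le`, `nu_conj`, `nu_rep_mul`, `nu_rep_conj`, `det_unit`, `diag_unit`, `GS`, `GS_normal`, `GS_closed`, `GS_open`, ..): `Defs1.lean`
(`nu` is in Pool/Agent/helper16/PU/Defs.lean, namespace `Pool.Agent.PU`, which is open).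
Notation: `|.|` = norm, `N = (card m) ^ 2`.
-/

set_option autoImplicit false

namespace Pool.Agent.PV

open Matrix Polynomial Pool.Agent.GO Pool.Agent.AR Pool.Agent.RG Pool.Agent.HZ Pool.Agent.DS
  Pool.Agent.AX Pool.Agent.UM Pool.Agent.PU MeasureTheory NumberField

/-! ## A. The iteration (only real numbers) -/

/-- Row ITR (SHORT-MEDIUM; only numbers).
Proof. `0 ≤ β` (hypothesis with `b = 0`). If `B 2 = 0` done. So `B r > 0` for all `r ≥ 2` (step). If no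
`r ≥ 2` has `B r < η` and `1 / p ^ r < η`: for all large `r` the second holds, so `η ≤ B r` for large
`r`, so for all `r` (antitone), `η ≤ β`; and `B 2 / p * η ^ (N + 2) ≤ η`. Otherwise let `r₀` be the
least one; for all `r ≥ r₀` both inequalities hold. (1) `η * B 2 / p ≤ B r₀`: if `r₀ = 2` clear (`η ≤ 1`).
If `r₀ > 2`, `r₀ - 1` fails: either `η ≤ B (r₀ - 1)`, `B r₀ ≥ η / p ≥ η * B 2 / p`; or
`η ≤ 1 / p ^ (r₀ - 1)`: `B r₀ ≥ B 2 / p ^ (r₀ - 2)` (induction on the step) `= p * B 2 / p ^ (r₀ - 1) ≥ η * B 2`.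
(2) For all `a ≥ r₀`: `η ^ (N - e a + 1) * B a ≤ β`, by induction on `N - e a`. We have
`B a / p ^ a < η * B a ≤ B (2 * a)`. If `e s = e a` for all `s ≥ a`: for every `R > 2 * a` the push
hypothesis (`r = a`, `t = 2 * a`) gives `B (2 * a) ≤ max (B a / p ^ a) (B R)`, so `B (2 * a) ≤ B R`, also for
smaller `R`; so `η * B a ≤ B (2 * a) ≤ β`. Otherwise let `a' > a` be the least with `e a' ≠ e a`, so
`e a' ≥ e a + 1`. If `a' ≤ 2 * a`: `B a' ≥ B (2 * a) ≥ η * B a`. If `a' > 2 * a`: the push hypothesis with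
`R = a'` gives `η * B a ≤ B a'` again. Induction for `a'`: `β ≥ η ^ (N - e a' + 1) * B a' ≥
η ^ (N - e a' + 2) * B a ≥ η ^ (N - e a + 1) * B a`. (3) (1) and (2) for `a = r₀`. -/
def ITR_stmt : Prop := ∀ (p : ℕ) (B : ℕ → ℝ) (e : ℕ → ℕ) (N : ℕ) (η β : ℝ), 2 ≤ p → 0 < η → η ≤ 1 →
  (∀ r, 0 ≤ B r) → (∀ r, B r ≤ 1) → Antitone B → Monotone e → (∀ r, e r ≤ N) →
  (∀ r, 2 ≤ r → B r / p ≤ B (r + 1)) →
  (∀ r, 2 ≤ r → B r < η → η * B r ≤ B (2 * r)) →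
  (∀ r t R, 2 ≤ r → r ≤ t → t < R → (∀ s, r ≤ s → s < R → e s = e r) →
    B t ≤ max (B r / p ^ (t - r)) (B R)) →
  (∀ b, (∀ R, b ≤ B R) → b ≤ β) → B 2 / p * η ^ (N + 2) ≤ β

/-! ## B. The doubling -/

/-- Row KLP (SHORT-MEDIUM; pure algebra). A polynomial which annihilates `X ↦ V X V⁻¹`.
Proof. `f = V.charpoly`. `M = ∑ k, (C (f.coeff k) * X ^ k) • (V ^ k).map C` over `A[X]` (that is `f (X V)`),
`c = M.det`. Under `matPolyEquiv : Matrix m m A[X] ≃ₐ (Matrix m m A)[X]` let `𝔐`, `𝔄` be the images of `M`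
and of its adjugate: `𝔐.coeff k = f.coeff k • V ^ k`, and `adjugate M * M = M.det • 1` gives
`(𝔄 * 𝔐).coeff n = c.coeff n • 1`. (1) For a polynomial `Q` over the matrices put
`Θ Q = ∑ n, V ^ n * X * Q.coeff n * V' ^ n` (additive). `Θ (𝔄 * 𝔐) = ∑ s k, V ^ (s + k) X A_s (f_k V ^ k) V' ^ (s + k)
= ∑ s, V ^ s (∑ k, f_k V ^ k) X A_s V' ^ s = 0` by Cayley-Hamilton (`V ^ k V' ^ (s + k) = V' ^ s`), and it is
the sum in the statement. (2) `x ≠ 0`: `(c.map g).eval x = det (∑ k, g (f_k) x ^ k (V.map g) ^ k) =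
det (∏ i, (x V - l i))`, and `det (x V - l) = (- x) ^ m * det (l / x - V) = (- x) ^ m * ∏ j, (l / x - l j) =
∏ j, (x * l j - l)` (`Matrix.eval_charpoly` / `Matrix.det_scalar_sub..`; `g` = the homomorphism `f` of the statement). -/
def KLP_stmt : Prop := ∀ {A m : Type} [CommRing A] [Fintype m] [DecidableEq m] (V V' : Matrix m m A),
  V * V' = 1 → V' * V = 1 → ∃ c : A[X],
  (∀ Y : Matrix m m A,
    ∑ k ∈ Finset.range (c.natDegree + 1), c.coeff k • (V ^ k * Y * V' ^ k) = 0) ∧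
  ∀ {K : Type} [Field K] (f : A →+* K) (l : m → K), (V.map f).charpoly = ∏ i, (X - C (l i)) →
    ∀ x : K, x ≠ 0 → (c.map f).eval x = ∏ i, ∏ j, (x * l j - l i)

/-- Row EIG (SHORT; two by two matrices).
Proof. `A w = β w` for some `w ≠ 0` and `β ≠ 0` (`A` is invertible, `K` algebraically closed:
`Matrix.exists_mulVec_eq_zero_iff` for `A - β`, `β` a root of `X ^ 2 - tr X + det`). Divide `w` by the
entry of larger absolute value. `α = A.trace - β`; `α * β = A.det` because `β` is a root. With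
`u = (- w 1, w 0)`: `lam w Y = u Y w`, and `u A = α u`: this is checked on `w` (`u A w = β u w = 0 = α u w`) and by
the trace (or by direct calculation from the two equations `A w = β w`). `A' w = β⁻¹ w`. So
`β * u (A Y A') w = β * α * β⁻¹ * u Y w`. -/
def EIG_stmt : Prop := ∀ {K : Type} [NormedField K] [IsAlgClosed K]
  (A A' : Matrix (Fin 2) (Fin 2) K), A * A' = 1 → A' * A = 1 → ∃ (w : Fin 2 → K) (α β : K),
  (∀ i, ‖w i‖ ≤ 1) ∧ (‖w 0‖ = 1 ∨ ‖w 1‖ = 1) ∧ α + β = A.trace ∧ α * β = A.det ∧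
  ∀ Y, β * lam w (A * Y * A') = α * lam w Y

/-- Row LAM (SHORT; Cramer's rule).
Proof. `ν ≥ 0`. If `κ * ν ≤ 0` clear. Let `ν > 0`, `κ > 0`. Suppose all three `|lam w ..| < κ ν`. Let `D` be the `3 × 3`
matrix of `d3`, `z = (- w 1 ^ 2, w 0 ^ 2, - w 0 * w 1)`: `D z = (lam w A, lam w B, lam w C)`. So
`D.det * z i = ∑ j, (adjugate D) i j * (lam ..) j`, and the entries of the adjugate (two by two minors) have
absolute value at most `ν ^ 2`, so `|D.det| |z i| < ν ^ 2 * κ * ν`. Take `i` with `|z i| = 1`. (Write the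
identities explicitly and use `ring`.) -/
def LAM_stmt : Prop := ∀ {K : Type} [NormedField K] [IsUltrametricDist K]
  (A B C : Matrix (Fin 2) (Fin 2) K) (w : Fin 2 → K) (κ ν : ℝ), (∀ i, ‖w i‖ ≤ 1) →
  (‖w 0‖ = 1 ∨ ‖w 1‖ = 1) → nu A ≤ ν → nu B ≤ ν → nu C ≤ ν → κ * ν ^ 3 ≤ ‖d3 A B C‖ →
  κ * ν ≤ ‖lam w A‖ ∨ κ * ν ≤ ‖lam w B‖ ∨ κ * ν ≤ ‖lam w C‖

/-- Row DBR (MEDIUM; first order calculus).
Proof. `App M s y` := `|s| = 1`, all entries of `M - s • 1` are at most `b`, `|lam w M - s * y| ≤ b ^ 2`. Rules: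
`App 1 1 0`; `App M s y`, `App M' s' y'` give `App (M * M') (s * s') (y + y')`: `M = s + E`, `M' = s' + E'`,
`M M' = s s' + (s E' + s' E + E E')`, `lam w (M M') = s lam w M' + s' lam w M + lam w (E E')` (`lam` is linear and
zero on scalars), `|lam w (E E')| ≤ b ^ 2` (`lam_le`, `entry_mul_le`, `nu_le_of_entry`); so `App (M ^ k) (s ^ k) (k * y)`; and
`App M s y` gives `App (R g * M * R g⁻¹) s (x * y)` (`= s + R g E R g⁻¹`, `|x| = 1`), so `App (R (g ^ k) M R (g ^ k)⁻¹) s (x ^ k * y)`.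
`App (R h) s y` for `s = R h 1 1` (`diag_unit`, `det_unit`), `y = lam w (R h) / s` (`entry_sub_le`). So
`App (R (dprod g h e n)) s' ((∑ k ∈ range n, e k * x ^ k) * y)`, `|y| = |lam w (R h)|`. As the absolute value of
`s' * (∑ ..) * y` is larger than `b ^ 2`, it is equal to `|lam w (R (dprod ..))| ≤ nu (R (dprod ..))` (`lam_le`). -/
def DBR_stmt : Prop := ∀ {Γ K : Type} [Group Γ] [NormedField K] [IsUltrametricDist K]
  (R : Γ →* Matrix (Fin 2) (Fin 2) K), (∀ g i j, ‖R g i j‖ ≤ 1) →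
  ∀ (g h : Γ) (w : Fin 2 → K) (x : K) (b : ℝ), (∀ i, ‖w i‖ ≤ 1) → ‖x‖ = 1 →
  (∀ Y, lam w (R g * Y * R g⁻¹) = x * lam w Y) → nu (R h) ≤ b → b < 1 → ∀ (e : ℕ → ℕ) (n : ℕ),
  b ^ 2 < ‖∑ k ∈ Finset.range n, (e k : K) * x ^ k‖ * ‖lam w (R h)‖ →
  ‖∑ k ∈ Finset.range n, (e k : K) * x ^ k‖ * ‖lam w (R h)‖ ≤ nu (R (dprod g h e n))

/-- Row DBV (SHORT-MEDIUM; congruences).
Proof. `V h = 1 + p ^ r X`. Modulo `p ^ (2 r)`: `(1 + p ^ r X) ^ k ≡ 1 + k p ^ r X` (induction), `V (g ^ k h ^ (e k) g ^ (-k)) ≡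
1 + e k p ^ r V g ^ k X V g⁻¹ ^ k`, `(1 + p ^ r Y) (1 + p ^ r Y') ≡ 1 + p ^ r (Y + Y')`, so
`V (dprod ..) ≡ 1 + p ^ r ∑ k, e k V g ^ k X V g⁻¹ ^ k ≡ 1 + p ^ r ∑ k, c k .. = 1` (`e k ≡ c k` modulo `p ^ r`). (Work in
the quotient ring `ℤ_[p] ⧸ span {p ^ (2 r)}`, or with the predicate `M ≡ M'` := all entries of `M - M'` divisible.) -/
def DBV_stmt : Prop := ∀ (p : ℕ) [Fact p.Prime] {Γ m : Type} [Group Γ] [Fintype m] [DecidableEq m]
  (V : Γ →* Matrix m m ℤ_[p]) (g h : Γ) (r n : ℕ) (c : ℕ → ℤ_[p]) (e : ℕ → ℕ),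
  (∀ Y : Matrix m m ℤ_[p], ∑ k ∈ Finset.range n, c k • (V g ^ k * Y * V g⁻¹ ^ k) = 0) →
  (∀ k, (p : ℤ_[p]) ^ r ∣ (e k : ℤ_[p]) - c k) → (∀ i j, (p : ℤ_[p]) ^ r ∣ (V h - 1) i j) →
  ∀ i j, (p : ℤ_[p]) ^ (2 * r) ∣ (V (dprod g h e n) - 1) i j

/-- Row DBL (MEDIUM; assembly of the doubling). uses: KLP, EIG, LAM, DBR, DBV.
Proof. `b = nu (R h)`, `θ` = the norm of the product, `η = κ * θ`. If `b = 0`: `h' = 1`. Let `b > 0`; `b < 1` (`Lvl.small`, `κ ≤ 1`,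
`|2| ≤ 1`). EIG for `A = R g`, `A' = R g⁻¹`: `w`, `α'`, `β'` with the same sum and product as `α`, `β`, so `(α', β')` is `(α, β)` or
`(β, α)`; the norm of the product is the same for `(β, α)` (exchange `i` and `j`, signs). So we may take `α' = α`, `β' = β`. `|α| = |β| = 1`
(`|α β| = 1`, `det_unit`; `|α|, |β| ≤ 1` as roots of `X ^ 2 - t X + δ`, ultrametric). `x = α / β`. `Lvl.spn` for `h` and LAM (`ν = b`,
`nu_rep_conj`): one of the three conjugates `h₁ = a * h * a⁻¹` has `κ * b ≤ |lam w (R h₁)|`; `h₁ ∈ Lv V G₁ r` (normal;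
`V h₁ - 1 = V a (V h - 1) V a⁻¹`), `nu (R h₁) = b`. KLP for `V g`, `V g⁻¹`: `c`; `n = c.natDegree + 1`; `(c.map (toF p K)).eval x =
∏ ∏ (x * l j - l i)` has norm `θ` (`|β| = 1`). Natural numbers `e k` with `e k ≡ c.coeff k` modulo `p ^ s`, `s ≥ r` so large that
`1 / p ^ s < θ` (`PadicInt.appr`, `PadicInt.appr_spec`; `θ > 0` since `b < η`): `∑ e k * x ^ k - (c.map ..).eval x` has norm at most `1 / p ^ s`
(`norm_toF`), so `|∑ e k * x ^ k| = θ`. `b ^ 2 < η * b ≤ θ * |lam w (R h₁)|`: DBR gives `η * b ≤ nu (R h')` for `h' = dprod g h₁ e n`; DBV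
and normality of `G₁`: `h' ∈ Lv V G₁ (2 * r)`. -/
def DBL_stmt : Prop := ∀ (p : ℕ) [Fact p.Prime] {Γ K : Type} [Group Γ] [TopologicalSpace Γ]
  [NormedField K] [NormedAlgebra ℚ_[p] K] [IsAlgClosed K]
  (R : Γ →* Matrix (Fin 2) (Fin 2) K) (G₁ : Subgroup Γ) (κ : ℝ), Lvl R G₁ κ →
  ∀ {m : Type} [Fintype m] [DecidableEq m] (V : Γ →* Matrix m m ℤ_[p]) (g : Γ) (l : m → K),
  ((V g).map (toF p K)).charpoly = ∏ i, (X - C (l i)) →
  ∀ α β : K, α + β = (R g).trace → α * β = (R g).det →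
  ∀ r, ∀ h ∈ Lv V G₁ r, nu (R h) < κ * ‖∏ i, ∏ j, (α * l j - β * l i)‖ →
  ∃ h' ∈ Lv V G₁ (2 * r), κ * ‖∏ i, ∏ j, (α * l j - β * l i)‖ * nu (R h) ≤ nu (R h')

/-! ## C. The push, compactness, the level theorem -/

/-- Row GRD (MEDIUM; the graded pieces).
Proof. For `r ≥ 1` let `gr r` be the set of the `A : Matrix m m (ZMod p)` such that there are `h ∈ Lv V G₁ r` and `Y` with
`V h = 1 + p ^ r • Y` and `Y` reduces to `A` (`PadicInt.toZMod`). It is an additive subgroup: products, inverses (modulo `p ^ (2 r)`).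
For `r ≥ 2`: `gr r ≤ gr (r + 1)`: `V (h ^ p) = (1 + p ^ r Y) ^ p = 1 + p ^ (r + 1) (Y + p Y')`, because `2 r ≥ r + 2`. Let `e r` be
the dimension over `ZMod p` of `gr (max r 2)` (`AddSubgroup.toZModSubmodule`, `Module.finrank`), or the exponent of `p` in
its cardinality: monotone, at most `(card m) ^ 2`; if `2 ≤ r ≤ r'` and `e r = e r'` then `gr r = gr r'`
(`Submodule.eq_of_le_of_finrank_eq`), which is the last statement. (`V u = 1 + p ^ r' • Y` for `u ∈ Lv V G₁ r'`: divisibility.) -/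
def GRD_stmt : Prop := ∀ (p : ℕ) [Fact p.Prime] {Γ m : Type} [Group Γ] [Fintype m] [DecidableEq m]
  (V : Γ →* Matrix m m ℤ_[p]) (G₁ : Subgroup Γ), ∃ e : ℕ → ℕ, Monotone e ∧
  (∀ r, e r ≤ Fintype.card m ^ 2) ∧ ∀ r r', 2 ≤ r → r ≤ r' → e r = e r' →
  ∀ u ∈ Lv V G₁ r', ∃ h ∈ Lv V G₁ r, ∃ Y Y' : Matrix m m ℤ_[p],
    V u = 1 + (p : ℤ_[p]) ^ r' • Y ∧ V h = 1 + (p : ℤ_[p]) ^ r • Y' ∧
    ∀ i j, (p : ℤ_[p]) ∣ (Y - Y') i j

/-- Row PSH (SHORT-MEDIUM; the push).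
Proof. Induction on `R' - t`. Let `u ∈ Lv V G₁ t`, `h`, `Y`, `Y'` from the hypothesis for `s = t`. `z = h ^ p ^ (t - r)`:
`V z = 1 + p ^ t • Y''` with `Y'' ≡ Y'` modulo `p` (induction, `(1 + p ^ s Y) ^ p = 1 + p ^ (s + 1) (Y + p ..)` for `s ≥ 2`),
`nu (R z) = |p ^ (t - r)| * nu (R h) ≤ b / p ^ (t - r)` (`Lvl.pow`, `norm_p`). `u' = u * z⁻¹ ∈ Lv V G₁ (t + 1)`:
`V u' - 1 = (V u - V z) V z⁻¹`. `nu (R u) ≤ max (nu (R u')) (nu (R z))` (`nu_rep_mul`). If `t + 1 = R'`: `nu (R u') ≤ b'`. Otherwise the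
induction gives `nu (R u') ≤ max (b / p ^ (t + 1 - r)) b'`. (`b ≥ 0`: `b ≥ nu (R 1) = 0`.) -/
def PSH_stmt : Prop := ∀ (p : ℕ) [Fact p.Prime] {Γ K : Type} [Group Γ] [TopologicalSpace Γ]
  [NormedField K] [NormedAlgebra ℚ_[p] K]
  (R : Γ →* Matrix (Fin 2) (Fin 2) K) (G₁ : Subgroup Γ) (κ : ℝ), Lvl R G₁ κ →
  ∀ {m : Type} [Fintype m] [DecidableEq m] (V : Γ →* Matrix m m ℤ_[p]) (r t R' : ℕ), 2 ≤ r →
  r ≤ t → t < R' →
  (∀ s, r ≤ s → s < R' → ∀ u ∈ Lv V G₁ s, ∃ h ∈ Lv V G₁ r, ∃ Y Y' : Matrix m m ℤ_[p],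
    V u = 1 + (p : ℤ_[p]) ^ s • Y ∧ V h = 1 + (p : ℤ_[p]) ^ r • Y' ∧
    ∀ i j, (p : ℤ_[p]) ∣ (Y - Y') i j) →
  ∀ b b' : ℝ, (∀ h ∈ Lv V G₁ r, nu (R h) ≤ b) → (∀ h ∈ Lv V G₁ R', nu (R h) ≤ b') →
  ∀ u ∈ Lv V G₁ t, nu (R u) ≤ max (b / p ^ (t - r)) b'

/-- Row CPT (SHORT-MEDIUM; compactness).
Proof. `Lv V G₁ r` is closed (`G₁` is closed; the set of `x : ℤ_[p]` divisible by `p ^ r` is closed, it is the ball `|x| ≤ p ^ (-r)`:
`PadicInt.norm_le_pow_iff_mem_span_pow`..) and contains `1`; `nu ∘ R` is continuous (`continuous_nu`): (1) by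
`IsCompact.exists_isMaxOn`. (2) The sets `{h ∈ Lv V G₁ r | b ≤ nu (R h)}` are closed, nonempty and decreasing:
`IsCompact.nonempty_iInter_of_sequence_nonempty_isCompact_isClosed`; an element divisible by all `p ^ r` is zero. -/
def CPT_stmt : Prop := ∀ (p : ℕ) [Fact p.Prime] {Γ K : Type} [Group Γ] [TopologicalSpace Γ]
  [IsTopologicalGroup Γ] [CompactSpace Γ] [NormedField K] [NormedAlgebra ℚ_[p] K]
  (R : Γ →* Matrix (Fin 2) (Fin 2) K) (G₁ : Subgroup Γ) (κ : ℝ), Lvl R G₁ κ →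
  ∀ {m : Type} [Fintype m] [DecidableEq m] (V : Γ →* Matrix m m ℤ_[p]), Continuous V →
  (∀ r, ∃ h ∈ Lv V G₁ r, ∀ h' ∈ Lv V G₁ r, nu (R h') ≤ nu (R h)) ∧
  ∀ b : ℝ, (∀ r, ∃ h ∈ Lv V G₁ r, b ≤ nu (R h)) → ∃ h ∈ G₁, V h = 1 ∧ b ≤ nu (R h)

/-- Row LEV (SHORT-MEDIUM; assembly of the level theorem). uses: ITR, DBL, GRD, PSH, CPT.
Proof. `θ` = the norm of the product, `η = κ * θ`. If `η = 0`: `h = 1`. `|α|, |β|, |l i| ≤ 1` (roots of monic polynomials with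
integral coefficients, ultrametric), so `θ ≤ 1`, `0 < η ≤ 1`. `B r` = the maximum of `nu (R h)` on `Lv V G₁ r` (CPT (1)), `e` from GRD,
`N = (card m) ^ 2`. `0 ≤ B r ≤ 1`, antitone (`Lv` is decreasing), `B r / p ≤ B (r + 1)`: `h ^ p ∈ Lv V G₁ (r + 1)` (`r ≥ 1`), `Lvl.pow`,
`norm_p`. Doubling: DBL. Push: PSH with `b = B r`, `b' = B R`. `β₀` = the maximum of `nu (R h)` on the `h ∈ G₁` with `V h = 1`
(exists: this set is closed and contains `1`; or take the supremum and CPT (2)); if `b ≤ B R` for all `R` then `b ≤ β₀` by CPT (2).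
ITR: `B 2 / p * η ^ (N + 2) ≤ β₀`, and `nu (R h₂) ≤ B 2`. -/
def LEV_stmt : Prop := ∀ (p : ℕ) [Fact p.Prime] {Γ K : Type} [Group Γ] [TopologicalSpace Γ]
  [IsTopologicalGroup Γ] [CompactSpace Γ] [NormedField K] [NormedAlgebra ℚ_[p] K] [IsAlgClosed K]
  (R : Γ →* Matrix (Fin 2) (Fin 2) K) (G₁ : Subgroup Γ) (κ : ℝ), Lvl R G₁ κ →
  ∀ {m : Type} [Fintype m] [DecidableEq m] (V : Γ →* Matrix m m ℤ_[p]), Continuous V →
  ∀ h₂ ∈ Lv V G₁ 2, ∀ (g : Γ) (l : m → K),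
  ((V g).map (toF p K)).charpoly = ∏ i, (X - C (l i)) →
  ∀ α β : K, α + β = (R g).trace → α * β = (R g).det → ∃ h ∈ G₁, V h = 1 ∧
  nu (R h₂) / p * (κ * ‖∏ i, ∏ j, (α * l j - β * l i)‖) ^ (Fintype.card m ^ 2 + 2) ≤ nu (R h)

/-- Row COM (SHORT-MEDIUM; commutators).
Proof. `X = R x`, `ν = nu X`, `μ = nu (R y)`; if `ν μ = 0`: `a = 1`. `Lvl.spn` for `y`: `a₁ a₂ a₃`, `Yᵢ = R (aᵢ y aᵢ⁻¹)`, `nu Yᵢ = μ`. Let
`ξ = (X 0 1, X 1 0, X 0 0 - X 1 1)`, `yᵢ` the same for `Yᵢ`, `Cᵢ = X Yᵢ - Yᵢ X`: `Cᵢ 0 1 = ξ₃ y₁ - ξ₁ y₃ =: p`, `Cᵢ 1 0 = ξ₂ y₃ - ξ₃ y₂ =: q`,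
`Cᵢ 0 0 - Cᵢ 1 1 = 2 (ξ₁ y₂ - ξ₂ y₁) =: 2 s`. By Cramer's rule (matrix `D` of `d3`, the vector `(ξ₃, 0, - ξ₁)` is mapped to the three values
`p`, and so on) `|d3| |ξ k| ≤ μ ^ 2 * max`, the maximum of the `|p|, |q|, |s|` for `i = 1, 2, 3`. So for some `i` this maximum is at least
`κ μ ν` and `nu Cᵢ ≥ κ |2| μ ν` (`|2| ≤ 1`). Let `Y = Yᵢ`, `Z = R x⁻¹ * R (aᵢ y aᵢ⁻¹)⁻¹`: `R [x, aᵢ y aᵢ⁻¹] = 1 + Cᵢ Z`. `Z = z + E`, `z = Z 1 1`,
`|z| = 1` (`diag_unit`; `nu Z ≤ max ν μ < κ |2| ≤ 1`: `nu_rep_mul`, `nu_rep_inv`, `Lvl.small`), the entries of `E` are at most `max ν μ`, those of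
`Cᵢ` at most `ν μ` (`Cᵢ` = the commutator of `X - X 1 1` and `Y - Y 1 1`). `nu (Cᵢ E) ≤ ν μ max ν μ < κ |2| ν μ ≤ nu (z Cᵢ)`, so
`nu (Cᵢ Z) ≥ κ |2| ν μ` (`nu_add_le` for `z Cᵢ = Cᵢ Z + (- Cᵢ E)`). -/
def COM_stmt : Prop := ∀ {Γ K : Type} [Group Γ] [TopologicalSpace Γ] [NormedField K]
  [IsUltrametricDist K] (R : Γ →* Matrix (Fin 2) (Fin 2) K) (G₁ : Subgroup Γ) (κ : ℝ),
  Lvl R G₁ κ → ∀ x ∈ G₁, ∀ y ∈ G₁, ∃ a : Γ,
  κ * ‖(2 : K)‖ * nu (R x) * nu (R y) ≤ nu (R (x * (a * y * a⁻¹) * x⁻¹ * (a * y * a⁻¹)⁻¹))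

/-! ## D. Over `F`, with the universal polynomial -/

/-- Row EXT (SHORT-MEDIUM; an algebraically closed normed extension).
Proof. `K = AlgebraicClosure F` (or `PadicAlgCl p` with an embedding of `F` over `ℚ_[p]`) with the spectral norm. `F` is ultrametric
(`ultra`), complete (`FiniteDimensional.complete ℚ_[p] F`) and nontrivially normed (`(p : F)⁻¹` has norm `p > 1`; give the instance
`{ (inferInstance : NormedField F) with non_trivial := .. }`): `spectralNorm.normedField F K`, `spectralNorm_extends`. The algebra structure is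
the composition `ℚ_[p] → F → K`; `norm_smul_le` from multiplicativity. (With `PadicAlgCl p`: both norms on `F` are multiplicative extensions
of the norm of `ℚ_[p]`: `spectralNorm_unique_field_norm_ext`.) -/
def EXT_stmt : Prop := ∀ (p : ℕ) [Fact p.Prime] (F : Type) [NormedField F] [NormedAlgebra ℚ_[p] F]
  [FiniteDimensional ℚ_[p] F], ∃ (K : Type) (_ : NormedField K) (_ : NormedAlgebra ℚ_[p] K)
  (_ : IsAlgClosed K) (j : F →+* K), (∀ x, ‖j x‖ = ‖x‖) ∧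
  ∀ x : ℚ_[p], j (algebraMap ℚ_[p] F x) = algebraMap ℚ_[p] K x

/-- `Φ` is the universal polynomial of the relation `Ratio`, given by the product formula. -/
def IsPhiX {r : ℕ} (n : Fin r → ℕ) (i₀ : Fin r) (Φ : (MvPolynomial (Fin r × ℕ) ℤ)[X]) : Prop :=
  IsPhi n i₀ Φ ∧ ∀ {F : Type} [Field F] (P : Fin r → F[X]) (δ : F),
    (∀ i, (P i).Monic ∧ (P i).natDegree = n i) → P i₀ = X - C δ →
    ∀ {m : Type} [Fintype m] (l : m → F), ∏ i, P i = ∏ j, (X - C (l j)) →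
    ∀ t, ev Φ P t = ∏ i, ∏ j, (l i * l j * t ^ 2 - δ * (l i + l j) ^ 2)

/-- Row PHX (SHORT-MEDIUM; adaptation of `PHI`, Pool/Agent/helper65/UM/PHI.lean).
Proof. The polynomial constructed there satisfies `Φ.map ι = PHI_G δ' l` for any field and any `l : Fin (∑ n i) → F` with
`∏ P i = ∏ (X - C (l i))` (`key`; algebraically closed is only used to find `l`); `PHI_eval`. For `m` of another type: it has `∑ n i` elements (degrees)
and one transports `l` along a bijection; `Fintype.prod_prod_type`. -/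
def PHX_stmt : Prop := ∀ (r : ℕ) (n : Fin r → ℕ) (i₀ : Fin r),
  ∃ Φ : (MvPolynomial (Fin r × ℕ) ℤ)[X], IsPhiX n i₀ Φ

/-- Row BCL (SHORT; base change of `Lvl`).
Proof. `bc j R g = (R g).map j`: `nu`, `d3` and the entries have the same norms (`d3` of the images is the image of `d3`:
`Matrix.det_fin_three` and `map_..`), `j` is an isometry, so continuous; `(2 : K) = j 2`, `(k : K) = j k`. -/
def BCL_stmt : Prop := ∀ {Γ F K : Type} [Group Γ] [TopologicalSpace Γ] [NormedField F]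
  [NormedField K] (j : F →+* K), (∀ x, ‖j x‖ = ‖x‖) →
  ∀ (R : Γ →* Matrix (Fin 2) (Fin 2) F) (G₁ : Subgroup Γ) (κ : ℝ), Lvl R G₁ κ →
  Lvl (bc j R) G₁ κ ∧ (∀ g, nu (bc j R g) = nu (R g)) ∧ (∀ g, (bc j R g).trace = j (R g).trace) ∧
  ∀ g, (bc j R g).det = j (R g).det

/-- Row LVF (SHORT-MEDIUM; the level theorem for families). uses: LEV, EXT, BCL.
Proof. EXT: `K`, `j`; `R' = bc j R`, BCL. `V' = bsum V` (continuous: blocks; `m = Σ i, Fin (n i)`, `card m = ∑ n i`); `V' h = 1` iff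
`h ∈ kerV V` (`Matrix.blockDiagonal'_injective`..), `h₂ ∈ Lv V' G₁ 2` (entries of the blocks, zero outside). The charpoly of
`(V' g).map (toF p K)` is the product of those of the `(V i g).map (toF p K)` (`Pool.Agent.RG.DSM.charpoly_bd`), monic of degree
`∑ n i`, so `∏ (X - C (l j))`, `l : m → K` (algebraically closed: `exists_roots`, Pool/Agent/helper46/DS/Conv.lean; `m ≃ Fin (∑ n i)`). `α + β`,
`α β` = trace, determinant of `R' g` (a root exists). `toF p K = j.comp (toF p F)`. `IsPhiX` over `K` (`δ = (R' g).det`, the charpoly of `V i₀ g` over `K`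
is the image of that over `F`): `j (ev Φ (charpolys over F) (R g).trace) = ev Φ (charpolys over K) (α + β) =
∏ i j, (l i * l j * (α + β) ^ 2 - α β (l i + l j) ^ 2) = ∏ i j, (α * l j - β * l i) * (α * l i - β * l j) = (∏ i j, (α * l j - β * l i)) ^ 2` up to
the order of the factors (`VAL`: `ev` commutes with ring homomorphisms: `VAL_stmt` is proved, Pool/Agent/helper30/UM/VAL.lean, import it). So
`θ ^ 2 = |ev ..|`, and `θ ≤ 1` (`α`, `β`, `l i` are roots of monic polynomials with integral coefficients), so `|ev ..| ≤ θ`. -/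
def LVF_stmt : Prop := ∀ {r : ℕ} (n : Fin r → ℕ) (i₀ : Fin r) (Φ : (MvPolynomial (Fin r × ℕ) ℤ)[X]),
  IsPhiX n i₀ Φ → ∀ (p : ℕ) [Fact p.Prime] {Γ F : Type} [Group Γ] [TopologicalSpace Γ]
  [IsTopologicalGroup Γ] [CompactSpace Γ] [NormedField F] [NormedAlgebra ℚ_[p] F]
  [FiniteDimensional ℚ_[p] F] (R : Γ →* Matrix (Fin 2) (Fin 2) F) (G₁ : Subgroup Γ) (κ : ℝ),
  Lvl R G₁ κ → ∀ (V : (i : Fin r) → Γ →* Matrix (Fin (n i)) (Fin (n i)) ℤ_[p]),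
  (∀ i, Continuous (V i)) → ∀ h₂ ∈ Lv (bsum V) G₁ 2, ∀ g : Γ,
  ((V i₀ g).map (toF p F)).charpoly = X - C (R g).det → ∃ h ∈ G₁, h ∈ kerV V ∧
  nu (R h₂) / p * (κ * ‖ev Φ (fun i => ((V i g).map (toF p F)).charpoly) (R g).trace‖) ^
    ((∑ i, n i) ^ 2 + 2) ≤ nu (R h)

/-! ## E. Powers -/

/-- Row PWR (SHORT-MEDIUM; the binomial theorem).
Proof. `ν = nu M`, `s = M 1 1`, `|s| = 1` (`diag_unit`), `M = s (1 + Y)`, the entries of `Y` are at most `ν` (`entry_sub_le`), `nu Y = ν` (`nu_smul`,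
`nu_sub_scalar`). If `k = 0` or `ν = 0` clear (`ν = 0`: `M`, `M ^ k` scalar). `M ^ k = s ^ k ∑ j ≤ k, C(k, j) Y ^ j` (`add_pow` for the commuting `1`, `Y`);
`nu (M ^ k) = nu (k Y + ∑ j ≥ 2, C(k, j) Y ^ j)`. The entries of `Y ^ j` are at most `ν ^ j`, `|j| |C(k, j)| ≤ |k|` (`j C(k, j) = k C(k - 1, j - 1)`), so
those of the term `j ≥ 2` are at most `|k| ν ^ j / |j| < |k| ν = nu (k Y)` (`k ≠ 0` in `K`: the hypothesis gives `|k| > 0` for `k ≥ 2`); ultrametric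
(`nu_add_le` in both directions). -/
def PWR_stmt : Prop := ∀ {K : Type} [NormedField K] [IsUltrametricDist K]
  (M : Matrix (Fin 2) (Fin 2) K), (∀ i j, ‖M i j‖ ≤ 1) → ‖M.det‖ = 1 → nu M < 1 →
  (∀ j : ℕ, 2 ≤ j → nu M ^ (j - 1) < ‖(j : K)‖) → ∀ k : ℕ, nu (M ^ k) = ‖(k : K)‖ * nu M

/-- Row DSC (this is part (1) of row RAM of helper16, not a row here).
Proof. Suppose `|x| ^ d > 1 / p`, `|x| < 1`; `d ≥ 1`, `x ≠ 0`. The `d + 1` elements `1, x, .., x ^ d` are linearly dependent over `ℚ_[p]`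
(`Module.finrank ≤ d`): `∑ a i • x ^ i = 0`, not all `a i` zero. For `i < j` with `a i, a j ≠ 0`: `|a i| |x| ^ i ≠ |a j| |x| ^ j`, otherwise
`|x| ^ (j - i)` is a power of `p` with integer exponent (`Padic.norm_eq_zpow_neg_valuation`), but `1 / p < |x| ^ (j - i) < 1`. So the nonzero terms
have different norms and the sum is not zero (ultrametric: `ultra`; the term of largest norm is strictly larger than the sum of the others). -/
def DSC_stmt : Prop := ∀ (p : ℕ) [Fact p.Prime] (F : Type) [NormedField F] [NormedAlgebra ℚ_[p] F]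
  [FiniteDimensional ℚ_[p] F] (d : ℕ), Module.finrank ℚ_[p] F ≤ d →
  ∀ x : F, ‖x‖ < 1 → ‖x‖ ^ d ≤ (p : ℝ)⁻¹

/-- Row BPW (SHORT; powers near the scalars, large `p`). uses: PWR, DSC.
Proof. `nu M` is the norm of an element of `F` (`nu_cases`), so `ν ^ d ≤ 1 / p` for `ν = nu M < 1` (DSC). The hypothesis of PWR: let `v` be the exponent
of `p` in `j ≥ 2`, `|j| = p ^ (- v)` (`norm_algebraMap'`, `Padic.norm_eq..`, `padicNorm`). If `v = 0`: `ν ^ (j - 1) < 1`. If `v ≥ 1`: `j - 1 ≥ p ^ v - 1 ≥ v (p - 1) > v d`, and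
`(ν ^ (j - 1)) ^ d ≤ p ^ (- (j - 1)) < p ^ (- v d) = |j| ^ d`. -/
def BPW_stmt : Prop := ∀ (p : ℕ) [Fact p.Prime] (F : Type) [NormedField F] [NormedAlgebra ℚ_[p] F]
  [FiniteDimensional ℚ_[p] F] (d : ℕ), Module.finrank ℚ_[p] F ≤ d → d + 1 < p →
  ∀ M : Matrix (Fin 2) (Fin 2) F, (∀ i j, ‖M i j‖ ≤ 1) → ‖M.det‖ = 1 → nu M < 1 →
  ∀ k : ℕ, nu (M ^ k) = ‖(k : F)‖ * nu M

/-- Row FPW (SHORT; powers near the scalars, any `p`). uses: PWR.
Proof. The hypothesis of PWR: `ν ≤ p ^ (-2)`; `v` = the exponent of `p` in `j ≥ 2`, `|j| = p ^ (- v)`, `j ≥ 2 ^ v ≥ v + 1`. If `v = 0` then `ν ^ (j - 1) < 1`; if `v ≥ 1` then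
`ν ^ (j - 1) ≤ p ^ (- 2 (j - 1)) ≤ p ^ (- 2 v) < p ^ (- v)`. -/
def FPW_stmt : Prop := ∀ (p : ℕ) [Fact p.Prime] {K : Type} [NormedField K] [NormedAlgebra ℚ_[p] K]
  (M : Matrix (Fin 2) (Fin 2) K), (∀ i j, ‖M i j‖ ≤ 1) → ‖M.det‖ = 1 → nu M ≤ ((p : ℝ) ^ 2)⁻¹ →
  ∀ k : ℕ, nu (M ^ k) = ‖(k : K)‖ * nu M

/-- Row BUN (MEDIUM; the power `p` of a unipotent matrix modulo the maximal ideal). uses: DSC.
Proof. `M = 1 + Y`, `N̄ = M.map red - 1 = Y.map red` (`IsRed.add`; `red` of an integral difference) satisfies `N̄ ^ p = 0` (`sub_pow_char_of_commute`), so it is nilpotent,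
`N̄ ^ 2 = 0` (a nilpotent two by two matrix has trace and determinant `0`), `N̄ ≠ 0`. So `N̄` is not a scalar, one of the three coordinates of `Y` has norm `1`:
`nu Y = 1`. The entries of `Y ^ 2` have norm `< 1`; let `ω` be their maximum, `ω ^ d ≤ 1 / p` (DSC). The entries of `Y ^ (2 i)`, `Y ^ (2 i + 1)` are at most
`ω ^ i`. `M ^ p = 1 + p Y + ∑ 2 ≤ j < p, C(p, j) Y ^ j + Y ^ p`; `|C(p, j)| ≤ 1 / p`, so the terms `2 ≤ j < p` are at most `ω / p < 1 / p`, and `Y ^ p` is at most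
`ω ^ ((p - 1) / 2) < 1 / p`: its power `d` is at most `p ^ (- (p - 1) / 2)`, and `(p - 1) / 2 > d` (`p` is odd as `p > 2 d + 1 ≥ 3`). So
`nu (M ^ p) = nu (p Y + smaller) = 1 / p`. -/
def BUN_stmt : Prop := ∀ (p : ℕ) [Fact p.Prime] {F κ : Type} [NormedField F] [NormedAlgebra ℚ_[p] F]
  [FiniteDimensional ℚ_[p] F] [Field κ] [CharP κ p] (red : F → κ), IsRed red → ∀ d : ℕ,
  Module.finrank ℚ_[p] F ≤ d → 2 * d + 1 < p → ∀ M : Matrix (Fin 2) (Fin 2) F,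
  (∀ i j, ‖M i j‖ ≤ 1) → M.map red ≠ 1 → (M.map red) ^ p = 1 → nu (M ^ p) = (p : ℝ)⁻¹

/-! ## F. Big primes -/

/-- Row BSP (MEDIUM; the adjoint representation of a big residual representation is irreducible).
Proof. `u = S s` has order `p`: `(u - 1) ^ p = 0`, so `N = u - 1`, `N ^ 2 = 0`, `N ≠ 0`. Let `W` be the span of `1` and the conjugates of `X` under `Γ`, a
subspace of the matrices stable under conjugation by `S g`. `T Z = u Z u⁻¹ - Z`, `u⁻¹ = 1 - N`: `T Z = N Z - Z N - N Z N ∈ W` for `Z ∈ W`. Take the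
basis `e₂` with `N e₂ = e₁ ≠ 0`, `N e₁ = 0` (change of basis). `Z = (a b; c d) ∈ W` not scalar. If `c ≠ 0`: `T (T Z) = - 2 c N`, so `N ∈ W`. If `c = 0`, `a ≠ d`:
`T Z = (d - a) N`. If `c = 0`, `a = d`: `b N = Z - a ∈ W`, `b ≠ 0`. So `N ∈ W`. `S` irreducible: some `g` moves the line `k e₁`, `N' = S g N S g⁻¹ ∈ W` has
lower left entry `c' ≠ 0`, and `T N' ∈ W` is, modulo `N` and scalars, `2 c'` times `diag(1, 0)` (`N N' - N' N = (c', ..; 0, - c')`). So `W` contains `1`, `N`,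
`diag(1, 0)`, `N'`: it is everything. So the `(x 0 1, x 1 0, x 0 0 - x 1 1)` of the conjugates of `X` span `κ ^ 3`, three of them are
linearly independent (`exists_linearIndependent..`, `Submodule` spans; or: if all determinants `d3` are zero, all vectors lie in a plane). -/
def BSP_stmt : Prop := ∀ (p : ℕ) [Fact p.Prime] {Γ κ : Type} [Group Γ] [Field κ] [IsAlgClosed κ]
  [CharP κ p] (S : Γ →* Matrix (Fin 2) (Fin 2) κ), 3 ≤ p → Big p S →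
  ∀ Y : Matrix (Fin 2) (Fin 2) κ, (∀ c : κ, Y ≠ c • 1) →
  ∃ a b c : Γ, d3 (S a * Y * S a⁻¹) (S b * Y * S b⁻¹) (S c * Y * S c⁻¹) ≠ 0

/-- Row BSG (SHORT-MEDIUM; lifting). uses: BSP.
Proof. `ν = nu (R h)`; `ν = 0`: `a = b = c = 1`. `ν = |x|`, `x ∈ F` one of the three coordinates (`nu_cases`), `Y = x⁻¹ (R h - R h 1 1)` has entries of norm at most `1`
(`entry_sub_le`), and one coordinate equal to `1`, so `Y.map red` is not a scalar (the coordinates of `Y.map red` are the `red` of those of `Y`, `IsRed`). BSP: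
`a b c`. The matrices `R a * Y * R a⁻¹` reduce to `S a * Y.map red * S a⁻¹`; `d3` of them reduces to a nonzero element, so it has norm `1`. `R (a h a⁻¹) =
x (R a Y R a⁻¹) + scalar`, so `d3 (R (a h a⁻¹)) .. = x ^ 3 * d3 ..`. -/
def BSG_stmt : Prop := ∀ (p : ℕ) [Fact p.Prime] {Γ F κ : Type} [Group Γ] [NormedField F]
  [NormedAlgebra ℚ_[p] F] [Field κ] [IsAlgClosed κ] [CharP κ p] (red : F → κ), IsRed red →
  ∀ R : Γ →* Matrix (Fin 2) (Fin 2) F, (∀ g i j, ‖R g i j‖ ≤ 1) →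
  ∀ S : Γ →* Matrix (Fin 2) (Fin 2) κ, (∀ g, S g = (R g).map red) → 3 ≤ p → Big p S →
  ∀ h : Γ, ∃ a b c : Γ,
    nu (R h) ^ 3 ≤ ‖d3 (R (a * h * a⁻¹)) (R (b * h * b⁻¹)) (R (c * h * c⁻¹))‖

/-- Row BGL (SHORT; assembly). uses: BPW, BSG.
Proof. `G₁ = GS R hint 1 one_pos` (Defs1: subgroup, `GS_normal`, `GS_closed`; `ultra p F`). `κ = 1`: `small`: `|2| = 1` (`p ≠ 2`: `2` is a unit in
`ℤ_[p]`; `norm_algebraMap'`). `pow`: BPW for `M = R h` (`det_unit`, `map_pow`; `d + 1 < p`). `spn`: BSG (`3 ≤ p`: `d ≥ 1`, `Module.finrank_pos`). -/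
def BGL_stmt : Prop := ∀ (p : ℕ) [Fact p.Prime] (d : ℕ) {Γ F κ : Type} [Group Γ]
  [TopologicalSpace Γ] [NormedField F] [NormedAlgebra ℚ_[p] F]
  [FiniteDimensional ℚ_[p] F] [Field κ] [IsAlgClosed κ] [CharP κ p] (red : F → κ), IsRed red →
  Module.finrank ℚ_[p] F ≤ d → 2 * d + 1 < p →
  ∀ R : Γ →* Matrix (Fin 2) (Fin 2) F, Continuous R → (∀ g i j, ‖R g i j‖ ≤ 1) →
  ∀ S : Γ →* Matrix (Fin 2) (Fin 2) κ, (∀ g, S g = (R g).map red) → Big p S →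
  ∃ G₁ : Subgroup Γ, (∀ h, h ∈ G₁ ↔ nu (R h) < 1) ∧ Lvl R G₁ 1

/-- Row BB2 (SHORT-MEDIUM; the second level is not too small). uses: BUN.
Proof. `h` with `orderOf (S h) = p`. Let `f h` be the image of `V h` modulo `p` (`mapHom PadicInt.toZMod V`), an element of finite order `p ^ a * m'`, `p` not dividing `m'`, of the
units of `Matrix m m (ZMod p)`; `p ^ a ≤ orderOf ≤` the number of matrices `= p ^ (card m ^ 2)`, so `a ≤ N`. `x = h ^ m'`: `S x` has order `p`, so `R x` satisfies the hypotheses of BUN: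
`nu (R (x ^ p)) = 1 / p`, so `x ^ p ∈ G₁`. `h₂ = x ^ (p ^ (N + 1)) = (x ^ p) ^ (p ^ N)`: `nu (R h₂) = p ^ (- N) / p` (`Lvl.pow`). `V (x ^ (p ^ N)) ≡ 1` modulo `p`, so `V h₂ ≡ 1` modulo `p ^ 2`
(`(1 + p Y) ^ p ≡ 1` modulo `p ^ 2`). -/
def BB2_stmt : Prop := ∀ (p : ℕ) [Fact p.Prime] (d : ℕ) {Γ F κ : Type} [Group Γ]
  [TopologicalSpace Γ] [NormedField F] [NormedAlgebra ℚ_[p] F]
  [FiniteDimensional ℚ_[p] F] [Field κ] [IsAlgClosed κ] [CharP κ p] (red : F → κ), IsRed red →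
  Module.finrank ℚ_[p] F ≤ d → 2 * d + 1 < p →
  ∀ R : Γ →* Matrix (Fin 2) (Fin 2) F,
  ∀ S : Γ →* Matrix (Fin 2) (Fin 2) κ, (∀ g, S g = (R g).map red) → Big p S →
  ∀ (G₁ : Subgroup Γ) (κ₁ : ℝ), (∀ h, h ∈ G₁ ↔ nu (R h) < 1) → Lvl R G₁ κ₁ →
  ∀ {m : Type} [Fintype m] [DecidableEq m] (V : Γ →* Matrix m m ℤ_[p]),
  ∃ h₂ ∈ Lv V G₁ 2, ((p : ℝ) ^ (Fintype.card m ^ 2 + 1))⁻¹ ≤ nu (R h₂)

/-! ## G. One representation, any prime -/

/-- Row SPF (MEDIUM; the constant by compactness).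
Proof. `F` is a proper space (finite dimensional over `ℚ_[p]`: `FiniteDimensional.proper`). (1) For every matrix `Y` over `F` which is not a scalar there are `a b c` with
`d3 (R a * Y * R a⁻¹) .. ≠ 0`: `Y₀ = Y - tr Y / 2` is a nonzero matrix of trace zero; `ad0_irred` (Pool/Agent/helper85/AR/Ad.lean) for `bc (algebraMap F Ω) R`: the span over `Ω` of the
`ad0 g (co Y₀)` is everything, so three of them are linearly independent; `em_ad0`; on matrices of trace zero `(x 0 1, x 1 0, x 0 0 - x 1 1)` are coordinates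
(`x 0 0 - x 1 1 = 2 x 0 0`). (2) The set of the `Y` with `Y 1 1 = 0`, `nu Y = 1` is compact (closed and bounded in a finite dimensional space over `F`, or a closed subset of the product
of three balls of `F`), `Y ↦ ‖d3 ..‖` is continuous for all `a b c`; the open sets `{Y | ‖d3 (a b c)‖ > 1 / (n + 1)}` for all `a b c n` cover it: finite subcover, `κ` =
the minimum of the finitely many `1 / (n + 1)` (and `1`). (3) `h` with `ν = nu (R h) ≠ 0`, `ν = |x|`: `Y = x⁻¹ (R h - R h 1 1)`, `d3 (R (a h a⁻¹)) .. = x ^ 3 d3 (R a Y R a⁻¹) ..`. -/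
def SPF_stmt : Prop := ∀ (p : ℕ) [Fact p.Prime] {Γ F Ω : Type} [Group Γ] [NormedField F]
  [NormedAlgebra ℚ_[p] F] [FiniteDimensional ℚ_[p] F] [Field Ω] [IsAlgClosed Ω] [CharZero Ω]
  [Algebra F Ω] (R : Γ →* Matrix (Fin 2) (Fin 2) F), SI (bc (algebraMap F Ω) R) →
  ∃ κ : ℝ, 0 < κ ∧ κ ≤ 1 ∧ ∀ h : Γ, ∃ a b c : Γ,
    κ * nu (R h) ^ 3 ≤ ‖d3 (R (a * h * a⁻¹)) (R (b * h * b⁻¹)) (R (c * h * c⁻¹))‖

/-- Row FGL (SHORT-MEDIUM; assembly for one representation). uses: FPW, SPF.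
Proof. `κ` from SPF, `δ = min (p ^ (-2)) (κ * |2|) > 0` (`|2| > 0`: characteristic zero, as `F` contains `ℚ_[p]`), `G₁ = GS R hint δ _` (Defs1: subgroup, `GS_normal`, `GS_closed`,
`GS_open`; `ultra p F`). `pow`: FPW. `G₁` is open, so of finite index (compact group). If `nu (R h) = 0` for all `h ∈ G₁` then `G₁` acts by scalars (`nu_eq_zero_iff`), which
is impossible as the restriction of `bc .. R` to `G₁` is irreducible (`SI`; dimension two; a line is stable under scalars). -/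
def FGL_stmt : Prop := ∀ (p : ℕ) [Fact p.Prime] {Γ F Ω : Type} [Group Γ] [TopologicalSpace Γ]
  [IsTopologicalGroup Γ] [CompactSpace Γ] [NormedField F] [NormedAlgebra ℚ_[p] F]
  [FiniteDimensional ℚ_[p] F] [Field Ω] [IsAlgClosed Ω] [CharZero Ω] [Algebra F Ω]
  (R : Γ →* Matrix (Fin 2) (Fin 2) F), Continuous R → (∀ g i j, ‖R g i j‖ ≤ 1) →
  SI (bc (algebraMap F Ω) R) → ∃ (κ δ : ℝ) (G₁ : Subgroup Γ), 0 < δ ∧ δ ≤ 1 ∧
  (∀ h, h ∈ G₁ ↔ nu (R h) < δ) ∧ Lvl R G₁ κ ∧ ∃ h₀ ∈ G₁, nu (R h₀) ≠ 0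

/-- Row FB2 (SHORT; the second level, one representation, all `V`).
Proof. `I = (p ^ (2 * k ^ 2))!`, `b = |I| * nu (R h₀) > 0`. For `V` of degree `k` the image of `V h₀` in the units of `Matrix m m (ZMod (p ^ 2))` has order at most `p ^ (2 k ^ 2)`, so
it divides `I`: `h₂ = h₀ ^ I ∈ Lv V G₁ 2` (`PadicInt.toZModPow 2`, its kernel is generated by `p ^ 2`), `Lvl.pow`. -/
def FB2_stmt : Prop := ∀ (p : ℕ) [Fact p.Prime] {Γ F : Type} [Group Γ] [TopologicalSpace Γ]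
  [NormedField F] [NormedAlgebra ℚ_[p] F] (R : Γ →* Matrix (Fin 2) (Fin 2) F) (G₁ : Subgroup Γ)
  (κ : ℝ), Lvl R G₁ κ → ∀ h₀ ∈ G₁, nu (R h₀) ≠ 0 → ∀ k : ℕ, ∃ b : ℝ, 0 < b ∧
  ∀ {m : Type} [Fintype m] [DecidableEq m] (V : Γ →* Matrix m m ℤ_[p]), Fintype.card m = k →
  ∃ h₂ ∈ Lv V G₁ 2, b ≤ nu (R h₂)

end Pool.Agent.PV
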