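import Mathlib
import Pool.Agent.helper89.PU.Spec1
import Pool.Agent.helper16.PU.Spec2

/-!
# Project PU (MP_2e0e07_nt): the one-prime theorem in the form used by the assembly
-/

set_option autoImplicit false

namespace Pool.Agent.PV

open Matrix Polynomial Pool.Agent.GO Pool.Agent.AR Pool.Agent.RG Pool.Agent.HZ Pool.Agent.DS
  Pool.Agent.AX Pool.Agent.UM Pool.Agent.PU MeasureTheory NumberField

theorem norm_two (p : ℕ) [hp : Fact p.Prime] (hp2 : p ≠ 2) (F : Type) [NormedField F]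
    [NormedAlgebra ℚ_[p] F] : ‖(2 : F)‖ = 1 := by
  have h2 : (2 : F) = algebraMap ℚ_[p] F ((2 : ℤ) : ℚ_[p]) := by
    rw [map_intCast]
    norm_num
  rw [h2, norm_algebraMap']
  refine le_antisymm (Padic.norm_int_le_one 2) ?_
  by_contra hlt
  rw [not_le] at hlt
  have h3 := (Padic.norm_intCast_lt_one_iff (p := p) (k := 2)).1 hlt
  have h4 : p ∣ 2 := by exact_mod_cast h3
  exact hp2 ((Nat.prime_dvd_prime_iff_eq hp.out Nat.prime_two).1 h4)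

theorem card_idx {r : ℕ} (n : Fin r → ℕ) : Fintype.card (Σ i : Fin r, Fin (n i)) = ∑ i, n i := by
  rw [Fintype.card_sigma]
  simp

/-- big primes `p > 2 d + 1` -/
theorem ampB (hLVF : LVF_stmt) (hBGL : BGL_stmt) (hBB2 : BB2_stmt) (hCOM : COM_stmt) :
    ∀ (r : ℕ) (n : Fin r → ℕ) (i₀ : Fin r) (Φ : (MvPolynomial (Fin r × ℕ) ℤ)[X]),
    IsPhiX n i₀ Φ → ∀ d : ℕ, ∃ c : ℕ, ∀ (p : ℕ) [Fact p.Prime] (Γ : Type) [Group Γ]
    [TopologicalSpace Γ] [IsTopologicalGroup Γ] [CompactSpace Γ] (F κ Ω : Type) [NormedField F]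
    [NormedAlgebra ℚ_[p] F] [FiniteDimensional ℚ_[p] F] [Field κ] [IsAlgClosed κ] [CharP κ p]
    [Field Ω] [IsAlgClosed Ω] [CharZero Ω] [Algebra F Ω] (red : F → κ),
    IsRed red → Module.finrank ℚ_[p] F ≤ d → ∀ (ρ : Γ →* Matrix (Fin 2) (Fin 2) F)
    (S : Γ →* Matrix (Fin 2) (Fin 2) κ), Continuous ρ → (∀ g a b, ‖ρ g a b‖ ≤ 1) →
    (∀ g, S g = (ρ g).map red) → SI (bc (algebraMap F Ω) ρ) → Big p S → 2 * d + 1 < p →
      IsAmp p n i₀ Φ (((p : ℝ) ^ c)⁻¹) 1 ((∑ i, n i) ^ 2 + 2) ρ := by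
  intro r n i₀ Φ hΦ d
  refine ⟨(∑ i, n i) ^ 2 + 2, ?_⟩
  intro p hp Γ _ _ _ _ F κ Ω _ _ _ _ _ _ _ _ _ _ red hred hd ρ S hρ hint hS _ hbig hpd
  have : IsUltrametricDist F := ultra p F
  have hp1 : (1 : ℝ) < p := by exact_mod_cast hp.out.one_lt
  have hp0 : (0 : ℝ) < p := zero_lt_one.trans hp1
  have hp2 : p ≠ 2 := by
    have : 0 < Module.finrank ℚ_[p] F := Module.finrank_pos
    omega
  obtain ⟨G₁, hG₁, hL⟩ := hBGL p d red hred hd hpd ρ hρ hint S hS hbig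
  have hkap1 : ((p : ℝ) ^ ((∑ i, n i) ^ 2 + 2))⁻¹ ≤ 1 := inv_le_one_of_one_le₀ (one_le_pow₀ hp1.le)
  refine ⟨by positivity, one_pos, le_rfl, ?_, ?_, ?_⟩
  · intro V hV g hg
    obtain ⟨h₂, hh₂, hb⟩ := hBB2 p d red hred hd hpd ρ S hS hbig G₁ 1 hG₁ hL (bsum V)
    obtain ⟨h, hh, hk, hle⟩ := hLVF n i₀ Φ hΦ p ρ G₁ 1 hL V hV h₂ hh₂ g hg
    refine ⟨h, hk, (hG₁ h).1 hh, le_trans ?_ hle⟩
    rw [one_mul]
    refine mul_le_mul_of_nonneg_right ?_ (pow_nonneg (norm_nonneg _) _)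
    rw [card_idx] at hb
    rw [le_div_iff₀ hp0]
    refine le_trans (le_of_eq ?_) hb
    rw [show (∑ i, n i) ^ 2 + 2 = ((∑ i, n i) ^ 2 + 1) + 1 from rfl, pow_succ _ ((∑ i, n i) ^ 2 + 1),
      mul_inv, mul_assoc, inv_mul_cancel₀ hp0.ne', mul_one]
  · intro x y hx hy
    obtain ⟨a, ha⟩ := hCOM ρ G₁ 1 hL x ((hG₁ x).2 hx) y ((hG₁ y).2 hy)
    refine ⟨a, le_trans ?_ ha⟩
    rw [norm_two p hp2 F, one_mul, one_mul]
    exact mul_le_of_le_one_left (mul_nonneg (nu_nonneg _) (nu_nonneg _)) hkap1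
  · intro x hx k
    rw [hL.pow x ((hG₁ x).2 hx) k, mul_assoc]
    exact mul_le_of_le_one_left (mul_nonneg (norm_nonneg _) (nu_nonneg _)) hkap1

/-- one representation, any prime -/
theorem ampF (hLVF : LVF_stmt) (hFGL : FGL_stmt) (hFB2 : FB2_stmt) (hCOM : COM_stmt) :
    ∀ (r : ℕ) (n : Fin r → ℕ) (i₀ : Fin r) (Φ : (MvPolynomial (Fin r × ℕ) ℤ)[X]),
    IsPhiX n i₀ Φ → ∀ (p : ℕ) [Fact p.Prime] (Γ : Type) [Group Γ]
    [TopologicalSpace Γ] [IsTopologicalGroup Γ] [CompactSpace Γ] (F : Type) [NormedField F]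
    [NormedAlgebra ℚ_[p] F] [FiniteDimensional ℚ_[p] F] (ρ : Γ →* Matrix (Fin 2) (Fin 2) F),
    Continuous ρ → (∀ g a b, ‖ρ g a b‖ ≤ 1) → ∃ kap δ : ℝ, ∀ (Ω : Type) [Field Ω] [IsAlgClosed Ω]
    [CharZero Ω] [Algebra F Ω], SI (bc (algebraMap F Ω) ρ) →
      IsAmp p n i₀ Φ kap δ ((∑ i, n i) ^ 2 + 2) ρ := by
  intro r n i₀ Φ hΦ p hp Γ _ _ _ _ F _ _ _ ρ hρ hint
  have : IsUltrametricDist F := ultra p F
  by_cases hex : ∃ (Ω : Type) (_ : Field Ω) (_ : IsAlgClosed Ω) (_ : CharZero Ω)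
      (_ : Algebra F Ω), SI (bc (algebraMap F Ω) ρ)
  swap
  · refine ⟨0, 0, ?_⟩
    intro Ω _ _ _ _ hSI
    exact absurd ⟨Ω, inferInstance, inferInstance, inferInstance, inferInstance, hSI⟩ hex
  obtain ⟨Ω₀, _, _, _, _, hSI₀⟩ := hex
  obtain ⟨κ, δ, G₁, hδ, hδ1, hG₁, hL, h₀, hh₀, hn₀⟩ := hFGL p ρ hρ hint hSI₀
  obtain ⟨b, hb, hb2⟩ := hFB2 p ρ G₁ κ hL h₀ hh₀ hn₀ (∑ i, n i)
  have hp1 : (1 : ℝ) < p := by exact_mod_cast hp.out.one_lt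
  have hp0 : (0 : ℝ) < p := zero_lt_one.trans hp1
  have h2pos : 0 < κ * ‖(2 : F)‖ := (nu_nonneg _).trans_lt (hL.small 1 (one_mem _))
  have hkpos : 0 < b / p * κ ^ ((∑ i, n i) ^ 2 + 2) := by
    have := hL.pos
    positivity
  set kap : ℝ := min (min (κ * ‖(2 : F)‖) (b / p * κ ^ ((∑ i, n i) ^ 2 + 2))) 1 with hkap
  have hk1 : kap ≤ 1 := min_le_right _ _
  have hk2 : kap ≤ κ * ‖(2 : F)‖ := (min_le_left _ _).trans (min_le_left _ _)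
  have hk3 : kap ≤ b / p * κ ^ ((∑ i, n i) ^ 2 + 2) := (min_le_left _ _).trans (min_le_right _ _)
  refine ⟨kap, δ, ?_⟩
  intro Ω _ _ _ _ _
  refine ⟨lt_min (lt_min h2pos hkpos) one_pos, hδ, hδ1, ?_, ?_, ?_⟩
  · intro V hV g hg
    obtain ⟨h₂, hh₂, hb₂⟩ := hb2 (bsum V) (card_idx n)
    obtain ⟨h, hh, hk, hle⟩ := hLVF n i₀ Φ hΦ p ρ G₁ κ hL V hV h₂ hh₂ g hg
    refine ⟨h, hk, (hG₁ h).1 hh, le_trans ?_ hle⟩
    rw [mul_pow, ← mul_assoc]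
    refine mul_le_mul_of_nonneg_right (hk3.trans ?_) (pow_nonneg (norm_nonneg _) _)
    refine mul_le_mul_of_nonneg_right ?_ (pow_nonneg hL.pos.le _)
    gcongr
  · intro x y hx hy
    obtain ⟨a, ha⟩ := hCOM ρ G₁ κ hL x ((hG₁ x).2 hx) y ((hG₁ y).2 hy)
    refine ⟨a, le_trans ?_ ha⟩
    rw [← mul_assoc]
    refine mul_le_mul_of_nonneg_right ?_ (nu_nonneg _)
    exact mul_le_mul_of_nonneg_right hk2 (nu_nonneg _)
  · intro x hx k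
    rw [hL.pow x ((hG₁ x).2 hx) k, mul_assoc]
    exact mul_le_of_le_one_left (mul_nonneg (norm_nonneg _) (nu_nonneg _)) hk1

end Pool.Agent.PV
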