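import Pool.Agent.helper89.PU.Spec1
import Pool.Agent.helper89.PU.Amp
import Pool.Agent.helper16.PU.Spec3
import Pool.Agent.helper16.PU.RAM
import Pool.Agent.helper73.PU.BB2
import Pool.Agent.helper48.PU.BGL
import Pool.Agent.helper90.PU.BSG
import Pool.Agent.helper57.PU.COM
import Pool.Agent.helper39.PU.EXT
import Pool.Agent.helper7.PU.FGL
import Pool.Agent.helper33.PU.FPW
import Pool.Agent.helper60.PU.LEV
import Pool.Agent.helper98.PU.PHX
import Pool.Agent.helper22.PU.PSH
import Pool.Agent.helper69.PU.SPF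
import Pool.Agent.helper66.PU.BPW
import Pool.Agent.helper87.PU.BUN
import Pool.Agent.helper16.PV.DBV
import Pool.Agent.helper18.PU.EIG
import Pool.Agent.helper61.PU.FB2
import Pool.Agent.helper43.PU.ITR
import Pool.Agent.helper40.PU.LAM
import Pool.Agent.helper65.PU.PWR
import Pool.Agent.helper88.PU.GRD
import Pool.Agent.helper31.PU.BSP
import Pool.Agent.helper41.PU.DBR
import Pool.Agent.helper34.PU.CPT
import Pool.Agent.helper23.PU.LVF
import Pool.Agent.helper95.PU.BCL
import Pool.Agent.helper29.PU.KLP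
import Pool.Agent.helper8.PU.DBL

/-!
# Project PU (MP_2e0e07_nt): all rows of the one-prime theorem put together

`PHX_all`, `AMBX_all`, `AMFX_all` have no hypotheses.
-/

set_option autoImplicit false

namespace Pool.Agent.PV

open Matrix Polynomial Pool.Agent.GO Pool.Agent.AR Pool.Agent.RG Pool.Agent.HZ Pool.Agent.DS
  Pool.Agent.AX Pool.Agent.UM Pool.Agent.PU MeasureTheory NumberField

theorem DSC_all : DSC_stmt := fun p _ F _ _ _ d hd x hx => (Pool.Agent.PU.RAM p d F hd).1 x hx

theorem BPW_all : BPW_stmt := BPW PWR DSC_all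

theorem FPW_all : FPW_stmt := FPW PWR

theorem BUN_all : BUN_stmt := BUN DSC_all

theorem BB2_all : BB2_stmt := BB2 BUN_all

theorem BSG_all : BSG_stmt := BSG BSP

theorem BGL_all : BGL_stmt := BGL BPW_all BSG_all

theorem FGL_all : FGL_stmt := FGL FPW_all SPF

theorem DBL_all : DBL_stmt := DBL KLP EIG LAM DBR DBV

theorem LEV_all : LEV_stmt := LEV ITR DBL_all GRD PSH CPT

theorem LVF_all : LVF_stmt := LVF LEV_all EXT BCL

theorem PHX_all : PHX_stmt := PHX

theorem AMBX_all : AMBX_stmt := ampB LVF_all BGL_all BB2_all COM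

theorem AMFX_all : AMFX_stmt := ampF LVF_all FGL_all FB2 COM

end Pool.Agent.PV
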